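import Mathlib
import Pool.Agent.Work.MP_0c7e55_an.Defs
import Pool.Agent.Work.MP_0c7e55_an.Main

open MeasureTheory
open Pool.Agent.Work.MP_0c7e55_an

namespace Pool.Agent.Results.MP_0c7e55_an.SimpleNormality

/-- For every shift-invariant probability measure `μ` of positive entropy over a finite or
countable alphabet and every non-deterministic set `S`, the set `S` does not preserve simple
`μ`-normality: some `μ`-generic point has a restriction to `S` that is not simply `μ`-normal. -/
theorem result {Λ : Type*} [Countable Λ] [MeasurableSpace Λ] [DiscreteMeasurableSpace Λ]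
    (μ : Measure (ℕ → Λ)) [IsProbabilityMeasure μ] (hinv : MeasurePreserving shift μ μ)
    (hpos : 0 < ksEntropy μ shift) (S : Set ℕ) (hS : S.Infinite) (hnd : ¬ IsDeterministic S) :
    ¬ PreservesSimpleNormality μ S :=
  main μ hinv hpos S hS hnd

end Pool.Agent.Results.MP_0c7e55_an.SimpleNormality
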